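import Pool.Agent.Work.MP_f66739_al.H66Two

set_option autoImplicit false

namespace Pool.Agent.Results.MP_f66739_al.TwoRelators

/-- There is a group with two generators and two defining relators whose word problem is
unsolvable. -/
theorem result :
    ∃ r₁ r₂ : FreeGroup (Fin 2),
      ¬ ComputablePred (fun w : List (Fin 2 × Bool) =>
          FreeGroup.mk w ∈ Subgroup.normalClosure ({r₁, r₂} : Set (FreeGroup (Fin 2)))) :=
  Pool.Agent.Work.MP_f66739_al.two

end Pool.Agent.Results.MP_f66739_al.TwoRelators
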